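import Mathlib
import Pool.Agent.Results.MP_4f47f1_al.Defs
import Pool.Agent.H13.Fm.Main

set_option autoImplicit false

namespace Pool.Agent.Results.MP_3bd419_al.LengthFour

open Pool.Agent.Results.MP_4f47f1_al

/-- Every soluble formation of finite groups of length at most `4` has a distributive lattice of
subformations. -/
theorem result (F : Formation) (hs : F.IsSoluble) (t : ℕ) (ht : t ≤ 4) (hl : F.HasLength t)
    (X Y Z : Formation) (hX : X ≤ F) (hY : Y ≤ F) (hZ : Z ≤ F) :
    X ⊓ (Y ⊔ Z) = (X ⊓ Y) ⊔ (X ⊓ Z) :=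
  H13.Fm.main F hs t ht hl X Y Z hX hY hZ

end Pool.Agent.Results.MP_3bd419_al.LengthFour
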